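import Pool.Agent.H104R3.EG.Stmts

set_option autoImplicit false

namespace Pool.Agent.H630R3.EG

open Pool.Agent.H104R3.EG

theorem taskExt : TaskExt := by
  intro hC hQ G _ _ N _ m n hm hn
  obtain ⟨S, hS, hS'⟩ := hC G _ _ _ _ (hQ G N m _ hm) hn
  refine ⟨S, hS.trans (le_of_eq (by ring)), fun α hα => ?_⟩
  obtain ⟨⟨β, hβ, hβα⟩, h2⟩ := hS' α hα
  refine h2 fun k x => ?_
  refine ⟨(α k * x)⁻¹ * α (k * x), ?_, by group⟩
  rw [← QuotientGroup.eq]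
  have h3 : β ((k * x : G) : G ⧸ N) = β (k : G ⧸ N) * (x : G ⧸ N) := by
    rw [QuotientGroup.mk_mul]
    exact hβ (x : G ⧸ N) (k : G ⧸ N)
  rw [hβα, hβα] at h3
  rw [h3, QuotientGroup.mk_mul]

end Pool.Agent.H630R3.EG
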