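import Pool.Agent.H104R3.EG.Stmts2
import Pool.Agent.H663R3.EG.Str

set_option autoImplicit false

namespace Pool.Agent.H630R3.EG

open Pool.Agent.H104R3.EG
open Pool.Agent.H663R3.EG (exists_core)

theorem exists_min (H : Type) [Group H] [Finite H] [Nontrivial H] :
    ∃ X : Subgroup H, MinNormal X := by
  classical
  let T := {X : Subgroup H // X.Normal ∧ X ≠ ⊥}
  have : Nonempty T := ⟨⟨⊤, inferInstance, top_ne_bot⟩⟩
  obtain ⟨X, hX⟩ := Finite.exists_min (fun H : T => Nat.card H.1)
  refine ⟨X.1, X.2.1, X.2.2, fun L hL hLX => ?_⟩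
  by_cases h : L = ⊥
  · exact Or.inl h
  · right
    exact Subgroup.eq_of_le_of_card_ge hLX (hX ⟨L, hL, h⟩)

theorem exists_sylow3 {H : Type} [Group H] [Finite H] (p : ℕ) [Fact p.Prime] (X : Subgroup H)
    (hX : MinNormal X) (hnab : NonAb X) (hnp : ¬ IsPGroup p X) :
    ∃ (r : ℕ) (_ : r.Prime), r ≠ p ∧ ∀ S : Sylow r X, 3 ≤ Nat.card S := by
  have := hX.1
  let R : Sylow p X := default
  set m := (R : Subgroup X).index with hm
  have hpm : ¬ p ∣ m := R.not_dvd_index
  have hm0 : m ≠ 0 := Subgroup.index_ne_zero_of_finite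
  have hmX : m ∣ Nat.card X := (R : Subgroup X).index_dvd_card
  have hm1 : m ≠ 1 := by
    intro h
    have h1 : (R : Subgroup X) = ⊤ := Subgroup.index_eq_one.1 h
    have h2 := R.isPGroup'
    apply hnp
    have h3 : IsPGroup p (⊤ : Subgroup X) := by
      rw [← h1]
      exact h2
    exact h3.of_equiv Subgroup.topEquiv
  have hm2 : m ≠ 2 := by
    intro h
    have hRn : (R : Subgroup X).Normal := Subgroup.normal_of_index_eq_two h
    have hRc : (R : Subgroup X).Characteristic := R.characteristic_of_normal hRn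
    have hRn' : ((R : Subgroup X).map X.subtype).Normal := inferInstance
    rcases hX.2.2 _ hRn' (Subgroup.map_subtype_le _) with h1 | h1
    · have h2 := (Subgroup.map_eq_bot_iff_of_injective _ X.subtype_injective).1 h1
      rw [h2, Subgroup.index_bot] at hm
      have h3 : Nat.card X = 2 := by rw [← hm, h]
      have : Fact (Nat.Prime 2) := ⟨Nat.prime_two⟩
      have : IsCyclic X := isCyclic_of_prime_card h3
      obtain ⟨x, hx, y, hy, hxy⟩ := hnab
      apply hxy
      have h4 := IsCyclic.isMulCommutative (α := X)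
      have h5 := h4.is_comm.comm (⟨x, hx⟩ : X) ⟨y, hy⟩
      exact congrArg Subtype.val h5
    · have h2 : (R : Subgroup X) = ⊤ := by
        rw [eq_top_iff]
        rintro ⟨x, hx⟩ -
        rw [← h1] at hx
        obtain ⟨y, hy, hyx⟩ := hx
        have : y = ⟨x, by rw [← hyx]; exact y.2⟩ := Subtype.ext hyx
        rw [← this]
        exact hy
      rw [h2, Subgroup.index_top] at hm
      exact hm1 hm
  have hm3 : 2 < m := by omega
  rcases Nat.four_dvd_or_exists_odd_prime_and_dvd_of_two_lt hm3 with h4 | ⟨r, hr, hrm, hodd⟩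
  · refine ⟨2, Nat.prime_two, ?_, fun S => ?_⟩
    · rintro rfl
      exact hpm (dvd_trans (by norm_num) h4)
    · have : Fact (Nat.Prime 2) := ⟨Nat.prime_two⟩
      have h5 : 2 ^ 2 ∣ Nat.card X := dvd_trans (by norm_num; exact h4) hmX
      have h6 := S.pow_dvd_card_of_pow_dvd_card h5
      have h7 := Nat.le_of_dvd Nat.card_pos h6
      omega
  · refine ⟨r, hr, ?_, fun S => ?_⟩
    · rintro rfl
      exact hpm hrm
    · have : Fact r.Prime := ⟨hr⟩
      have h5 : r ^ 1 ∣ Nat.card X := by rw [pow_one]; exact dvd_trans hrm hmX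
      have h6 := S.pow_dvd_card_of_pow_dvd_card h5
      rw [pow_one] at h6
      have h7 := Nat.le_of_dvd Nat.card_pos h6
      have h8 := hr.two_le
      have h9 : r ≠ 2 := by
        rintro rfl
        exact absurd hodd (by decide)
      omega

theorem taskStrG : TaskStrG := by
  classical
  intro hSQ hMP hD s G _ _ hsec p hp N hN hNp _ hG
  have : Fact p.Prime := ⟨hp⟩
  obtain ⟨hNn, hNb, hNmin⟩ := hN
  obtain ⟨P, hPn, hPp, hPmax⟩ := exists_core G p
  have hNP : N ≤ P := hPmax N hNn hNp
  -- `N` is centralized by `P`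
  have hcent : N ≤ Subgroup.centralizer (P : Set G) := by
    let _ : MulAction P N := MulAction.compHom N ((MulAut.conjNormal (H := N)).comp P.subtype)
    have hsm : ∀ (y : P) (x : N), ((y • x : N) : G) = y * x * (y : G)⁻¹ := by
      intro y x
      exact MulAut.conjNormal_apply (y : G) x
    have hdvd : p ∣ Nat.card N := by
      rcases hNp.card_eq_or_dvd with h | h
      · exact absurd (Subgroup.card_eq_one.1 h) hNb
      · exact h
    have h1 : (1 : N) ∈ MulAction.fixedPoints P N := by
      intro y
      apply Subtype.ext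
      rw [hsm]
      simp
    obtain ⟨b, hb, hb1⟩ := hPp.exists_fixed_point_of_prime_dvd_card_of_fixed_point N hdvd h1
    have hL := hNmin (N ⊓ Subgroup.centralizer (P : Set G)) inferInstance inf_le_left
    rcases hL with hL | hL
    · exfalso
      have hbL : (b : G) ∈ N ⊓ Subgroup.centralizer (P : Set G) := by
        refine Subgroup.mem_inf.2 ⟨b.2, ?_⟩
        rw [Subgroup.mem_centralizer_iff]
        intro y hy
        have h2 := congrArg (Subtype.val) (hb ⟨y, hy⟩)
        rw [hsm] at h2
        simp only at h2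
        exact mul_inv_eq_iff_eq_mul.1 h2
      rw [hL, Subgroup.mem_bot] at hbL
      exact hb1 (Subtype.ext hbL.symm)
    · rw [← hL]
      exact inf_le_right
  -- the quotient
  have hPtop : P ≠ ⊤ := by
    intro h
    rw [h] at hPp
    exact hG (hPp.of_equiv Subgroup.topEquiv)
  have : Nontrivial (G ⧸ P) := QuotientGroup.nontrivial_iff.2 hPtop
  obtain ⟨X, hX⟩ := exists_min (G ⧸ P)
  have hXn : X.Normal := hX.1
  have hXb : X ≠ ⊥ := hX.2.1
  set Y : Subgroup G := X.comap (QuotientGroup.mk' P) with hY
  have hPY : P ≤ Y := by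
    intro x hx
    rw [hY, Subgroup.mem_comap]
    have : (QuotientGroup.mk' P) x = 1 := (QuotientGroup.eq_one_iff x).2 hx
    rw [this]
    exact X.one_mem
  have hXnp : ¬ IsPGroup p X := by
    intro h
    have h1 : IsPGroup p Y := by
      refine h.comap_of_ker_isPGroup (QuotientGroup.mk' P) ?_
      rw [QuotientGroup.ker_mk']
      exact hPp
    have h2 : Y ≤ P := hPmax Y inferInstance h1
    apply hXb
    rw [eq_bot_iff]
    intro x hx
    obtain ⟨g, rfl⟩ := QuotientGroup.mk'_surjective P x
    exact (QuotientGroup.eq_one_iff g).2 (h2 hx)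
  have hcomm : ∀ x ∈ N, ∀ y ∈ P, x * y = y * x := by
    intro x hx y hy
    exact ((Subgroup.mem_centralizer_iff.1 (hcent hx)) y hy).symm
  by_cases hab : NonAb X
  · -- nonabelian case
    obtain ⟨r, hr, hrp, hS3⟩ := exists_sylow3 p X hX hab hXnp
    have : Fact r.Prime := ⟨hr⟩
    let f : Y →* X := (QuotientGroup.mk' P).subgroupComap X
    have hf : Function.Surjective f :=
      (QuotientGroup.mk' P).subgroupComap_surjective_of_surjective X
        (QuotientGroup.mk'_surjective P)
    let S : Sylow r Y := default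
    set Q : Subgroup G := (S : Subgroup Y).map Y.subtype with hQ
    have hQp : IsPGroup r Q := S.isPGroup'.map _
    let S' : Sylow r X := S.mapSurjective hf
    have hS' : (S' : Subgroup X) = (S : Subgroup Y).map f := rfl
    have hQcard : 3 ≤ Nat.card Q := by
      have h1 : Nat.card Q = Nat.card (S : Subgroup Y) :=
        Nat.card_congr ((S : Subgroup Y).equivMapOfInjective _ Y.subtype_injective).symm.toEquiv
      have h2 : Nat.card ((S : Subgroup Y).map f) ≤ Nat.card (S : Subgroup Y) :=
        Nat.le_of_dvd Nat.card_pos (Subgroup.card_map_dvd _ f)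
      have h3 := hS3 S'
      rw [h1]
      refine le_trans ?_ h2
      exact h3
    have hQb : Q ≠ ⊥ := by
      intro h
      rw [h, Subgroup.card_bot] at hQcard
      omega
    have hS'b : (S' : Subgroup X) ≠ ⊥ := by
      intro h
      have h3 := hS3 S'
      have h4 : Nat.card (S' : Subgroup X) = 1 := by rw [h, Subgroup.card_bot]
      change 3 ≤ Nat.card (S' : Subgroup X) at h3
      omega
    obtain ⟨xb, hxb, hXle⟩ := hD s (G ⧸ P) X r hr S' hX hab (hSQ s G hsec P) hS'b
    choose x hx using fun i => QuotientGroup.mk'_surjective P (xb i)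
    have hmap : (S' : Subgroup X).map X.subtype = Q.map (QuotientGroup.mk' P) := by
      rw [hS', hQ, Subgroup.map_map, Subgroup.map_map]
      rfl
    have hcl : Subgroup.closure (Set.range xb) =
        (Subgroup.closure (Set.range x)).map (QuotientGroup.mk' P) := by
      rw [MonoidHom.map_closure, ← Set.range_comp]
      congr 1
      congr 1
      funext i
      exact (hx i).symm
    have hYle : Y ≤ Q ⊔ Subgroup.closure (Set.range x) ⊔ P := by
      rw [hmap, hcl, ← Subgroup.map_sup] at hXle
      have h1 := Subgroup.comap_mono (f := QuotientGroup.mk' P) hXle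
      rw [Subgroup.comap_map_eq, QuotientGroup.ker_mk'] at h1
      exact h1
    refine ⟨P, Q, hPp, hcomm, hQb, ?_, Or.inr ⟨hQcard, x, ?_⟩⟩
    · exact disjoint_iff.1 (IsPGroup.disjoint_of_ne r p hrp Q N hQp hNp)
    · have h1 := Sylow.normalizer_sup_eq_top S
      rw [← hQ] at h1
      rw [eq_top_iff, ← h1]
      refine sup_le (le_sup_right.trans le_sup_left) (hYle.trans (sup_le (sup_le ?_ ?_) ?_))
      · exact Subgroup.le_normalizer.trans (le_sup_right.trans le_sup_left)
      · exact le_sup_right
      · exact le_sup_left.trans le_sup_left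
  · -- abelian case
    obtain ⟨r, hr, hRp⟩ := hMP _ X hX hab
    have : Fact r.Prime := ⟨hr⟩
    have hrp : r ≠ p := by
      rintro rfl
      exact hXnp hRp
    have hcardY : Nat.card Y = Nat.card P * Nat.card X := by
      have h2 : Y.index = X.index :=
        Subgroup.index_comap_of_surjective X (QuotientGroup.mk'_surjective P)
      have h3 := Y.card_mul_index
      have h4 := X.card_mul_index
      have h5 := P.card_mul_index
      rw [Subgroup.index_eq_card] at h5
      have h6 : X.index ≠ 0 := Subgroup.index_ne_zero_of_finite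
      rw [h2] at h3
      rw [← h5, ← h4, ← mul_assoc] at h3
      exact Nat.eq_of_mul_eq_mul_right (Nat.pos_of_ne_zero h6) h3
    obtain ⟨a, ha⟩ := IsPGroup.iff_card.1 hPp
    obtain ⟨k, hk⟩ := IsPGroup.iff_card.1 hRp
    have hk0 : k ≠ 0 := by
      rintro rfl
      rw [pow_zero] at hk
      exact hXb (Subgroup.card_eq_one.1 hk)
    let S : Sylow r Y := default
    set Q : Subgroup G := (S : Subgroup Y).map Y.subtype with hQ
    have hQp : IsPGroup r Q := S.isPGroup'.map _
    have hQcard : Nat.card Q = r ^ k := by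
      have h1 : Nat.card Q = Nat.card (S : Subgroup Y) :=
        Nat.card_congr ((S : Subgroup Y).equivMapOfInjective _ Y.subtype_injective).symm.toEquiv
      rw [h1]
      have h2 : Nat.card (S : Subgroup Y) = r ^ Nat.factorization (Nat.card Y) r :=
        S.card_eq_multiplicity
      rw [h2, hcardY, ha, hk, Nat.factorization_mul (pow_ne_zero _ hp.ne_zero)
        (pow_ne_zero _ hr.ne_zero), Finsupp.add_apply, Nat.factorization_pow,
        Nat.factorization_pow, Finsupp.smul_apply, Finsupp.smul_apply, hr.factorization_self,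
        Nat.factorization_eq_zero_of_not_dvd
          (fun h => hrp ((Nat.prime_dvd_prime_iff_eq hr hp).1 h))]
      simp
    have hQY : Q ≤ Y := Subgroup.map_subtype_le _
    have hQb : Q ≠ ⊥ := by
      intro h
      rw [h, Subgroup.card_bot] at hQcard
      have := Nat.one_lt_pow hk0 hr.one_lt
      omega
    have hYPQ : Y ≤ P ⊔ Q := by
      have h1 : P ⊔ Q ≤ Y := sup_le hPY hQY
      have h2 : Nat.card P ∣ Nat.card (P ⊔ Q : Subgroup G) :=
        Subgroup.card_dvd_of_le le_sup_left
      have h3 : Nat.card Q ∣ Nat.card (P ⊔ Q : Subgroup G) :=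
        Subgroup.card_dvd_of_le le_sup_right
      have h4 : Nat.Coprime (Nat.card P) (Nat.card Q) := by
        rw [ha, hQcard]
        exact Nat.Coprime.pow _ _ ((Nat.coprime_primes hp hr).2 (fun h => hrp h.symm))
      have h5 := h4.mul_dvd_of_dvd_of_dvd h2 h3
      have h6 : Nat.card Y ≤ Nat.card (P ⊔ Q : Subgroup G) := by
        rw [hcardY, hk, ← hQcard]
        exact Nat.le_of_dvd Nat.card_pos h5
      exact (Subgroup.eq_of_le_of_card_ge h1 h6).ge
    refine ⟨P, Q, hPp, hcomm, hQb, ?_, Or.inl ?_⟩
    · exact disjoint_iff.1 (IsPGroup.disjoint_of_ne r p hrp Q N hQp hNp)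
    · have h1 := Sylow.normalizer_sup_eq_top S
      rw [← hQ] at h1
      rw [eq_top_iff, ← h1]
      refine sup_le le_sup_right (hYPQ.trans (sup_le le_sup_left ?_))
      exact Subgroup.le_normalizer.trans le_sup_right

end Pool.Agent.H630R3.EG
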